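import Pool.Agent.Helper88.AC.Anti
import Pool.Agent.Helper88.AC.LowC

set_option autoImplicit false

namespace Pool.Agent.Results.MP_2f0ab9_lc.LowTwoPrompt

open Pool.Agent.Helper88.AC

theorem red_join_left (B C : Set ℕ) : Red B (join B C) := by
  refine RecursiveIn.iff_nat.2 ?_
  have h2 : Nat.RecursiveIn {(fun m => Part.some (chr (join B C) m) : ℕ →. ℕ)}
      (fun n => Part.some (2 * n)) :=
    Nat.Partrec.recursiveIn (Partrec.nat_iff.1
      (Primrec.nat_mul.to_comp.comp (Computable.const 2) Computable.id))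
  refine (Nat.RecursiveIn.comp (Nat.RecursiveIn.oracle _ (Set.mem_singleton _)) h2).of_eq
    fun n => ?_
  have h3 : chr (join B C) (2 * n) = chr B n := by
    rw [chr_join, if_pos (by omega)]
    congr 1
    omega
  simp [h3]

theorem red_of_computable {A C : Set ℕ} (h : ComputablePred (fun n => n ∈ A)) : Red A C := by
  classical
  obtain ⟨d, hd⟩ := h
  refine Partrec.turingReducible (Computable.partrec (f := chr A) ?_)
  refine (Computable.cond hd (Computable.const 1) (Computable.const 0)).of_eq fun n => ?_
  by_cases hn : n ∈ A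
  · rw [chr_of hn]; simp [hn]
  · rw [chr_of_not hn]; simp [hn]

theorem computable_empty : ComputablePred (fun n : ℕ => n ∈ (∅ : Set ℕ)) :=
  ⟨fun n => Decidable.isFalse (Set.notMem_empty n), Computable.const false⟩

theorem computable_of_red {B : Set ℕ} (h : Red B ∅) : ComputablePred (fun n => n ∈ B) := by
  classical
  have h0 : (fun n => Part.some (chr ∅ n) : ℕ →. ℕ) = fun _ => Part.some 0 := by
    funext n
    rw [chr_of_not (Set.notMem_empty n)]
  unfold Red at h
  rw [h0] at h
  have h1 : Computable (chr B) := TuringReducible.partrec_of_const h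
  refine ⟨fun n => Classical.dec _, ?_⟩
  have h2 : Computable (fun n => decide (chr B n = 1)) :=
    Computable₂.comp (f := fun b c : ℕ => decide (b = c)) Primrec.eq.decide.to_comp h1
      (Computable.const 1)
  refine h2.of_eq fun n => ?_
  by_cases hn : n ∈ B
  · simp [hn, chr_of hn]
  · simp [hn, chr_of_not hn]

/-- Every r.e. degree which is low₂ and contains a promptly simple set has the anticupping
property, in the strong form: no set `C` below `A` (r.e. or not) which is not above `A` joins
with `B` above `A`. -/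
theorem result (A : Set ℕ) (hA : PromptlySimple A) (hL : LowTwo A) :
    ∃ B : Set ℕ, REPred (fun n => n ∈ B) ∧ ¬ ComputablePred (fun n => n ∈ B) ∧
      Red B A ∧ ¬ Red A B ∧ ∀ C : Set ℕ, Red C A → ¬ Red A C → ¬ Red A (join B C) := by
  obtain ⟨hinf, a, p, ha, hp, hmono, hAs, hps⟩ := id hA
  obtain ⟨h, h1, h2, h3, h4, h5⟩ := dominates_of_lowTwo' A a ha hmono hAs hL
  obtain ⟨B, hB1, hB2, hB3, hB4⟩ := main hA ⟨h1, h2, h3, h4, h5⟩
  refine ⟨B, hB1, hB2, hB3, fun hAB => hB2 ?_, fun C hC hAC hj => hAC (hB4 C hC hj)⟩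
  have e0 : Red A ∅ := hB4 ∅ (red_of_computable computable_empty) (hAB.trans (red_join_left B ∅))
  exact computable_of_red (hB3.trans e0)

end Pool.Agent.Results.MP_2f0ab9_lc.LowTwoPrompt
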